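import Mathlib.Tactic
import Mathlib.Data.Fintype.Basic

/-!
# The gadget that splits into two halves
-/

namespace Pool.Agent.Q329.PSy

/-- If the two ends agree, so does the middle. -/
def im (a c b : Bool) : Bool := (a != c) || (b == a)

/-- The property of the gadget for one colouring. -/
def chk (a0 a1 a2 a3 a4 a5 a6 a7 a8 a9 : Bool) : Bool :=
  !(im a4 a9 a0 && im a0 a5 a9 && im a2 a8 a4 && im a0 a2 a3 && im a3 a9 a7 && im a0 a8 a1 &&
    im a0 a7 a6 && im a5 a7 a8 && im a3 a6 a5 && im a1 a9 a2 && im a1 a4 a0) ||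
  ((a1 == a0) && (a2 == a0) && (a3 == a0) && (a4 == a0) && (a6 == a5) && (a7 == a5) &&
    (a8 == a5) && (a9 == a5))

/-- Both values. -/
def allB (f : Bool → Bool) : Bool := f false && f true

theorem of_allB {f : Bool → Bool} (h : allB f = true) (b : Bool) : f b = true := by
  unfold allB at h
  rw [Bool.and_eq_true] at h
  cases b
  · exact h.1
  · exact h.2

theorem chk_all : (allB fun a0 => allB fun a1 => allB fun a2 => allB fun a3 => allB fun a4 =>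
    allB fun a5 => allB fun a6 => allB fun a7 => allB fun a8 => allB fun a9 =>
      chk a0 a1 a2 a3 a4 a5 a6 a7 a8 a9) = true := by
  decide +kernel

theorem im_iff {a c b : Bool} : im a c b = true ↔ (a = c → b = a) := by
  cases a <;> cases b <;> cases c <;> decide

theorem base (a0 a1 a2 a3 a4 a5 a6 a7 a8 a9 : Bool)
    (h1 : a4 = a9 → a0 = a4) (h2 : a0 = a5 → a9 = a0) (h3 : a2 = a8 → a4 = a2)
    (h4 : a0 = a2 → a3 = a0) (h5 : a3 = a9 → a7 = a3) (h6 : a0 = a8 → a1 = a0)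
    (h7 : a0 = a7 → a6 = a0) (h8 : a5 = a7 → a8 = a5) (h9 : a3 = a6 → a5 = a3)
    (h10 : a1 = a9 → a2 = a1) (h11 : a1 = a4 → a0 = a1) :
    (a1 = a0 ∧ a2 = a0 ∧ a3 = a0 ∧ a4 = a0) ∧ (a6 = a5 ∧ a7 = a5 ∧ a8 = a5 ∧ a9 = a5) := by
  have h := of_allB (of_allB (of_allB (of_allB (of_allB (of_allB (of_allB (of_allB
    (of_allB (of_allB chk_all a0) a1) a2) a3) a4) a5) a6) a7) a8) a9
  unfold chk at h
  rw [im_iff.2 h1, im_iff.2 h2, im_iff.2 h3, im_iff.2 h4, im_iff.2 h5, im_iff.2 h6, im_iff.2 h7,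
    im_iff.2 h8, im_iff.2 h9, im_iff.2 h10, im_iff.2 h11] at h
  simp only [Bool.and_self, Bool.not_true, Bool.false_or, Bool.and_eq_true, beq_iff_eq] at h
  obtain ⟨⟨⟨⟨⟨⟨⟨h1, h2⟩, h3⟩, h4⟩, h5⟩, h6⟩, h7⟩, h8⟩ := h
  exact ⟨⟨h1, h2, h3, h4⟩, h5, h6, h7, h8⟩

end Pool.Agent.Q329.PSy
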