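import Pool.Agent.Q329.PSy.Lab

/-!
# Colourings of the labels and satisfying assignments
-/

namespace Pool.Agent.Q329.PSy

open Pool.Agent.NPC

/-- The colouring is compatible with the middle vertices. -/
def Good (φ : F3) (C : ℕ × ℕ → Bool) : Prop :=
  ∀ u v w : ℕ × ℕ, u.1 < 15 → u.2 < 3 * φ.length → v.1 < 15 → v.2 < 3 * φ.length →
    md φ u v = some w → C u = C v → C w = C u

theorem good_m0 {φ : F3} {C : ℕ × ℕ → Bool} (h : Good φ C) {u v w : ℕ × ℕ}
    (hu : u.2 < 3 * φ.length) (hv1 : v.1 < 15) (hv : v.2 < 3 * φ.length)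
    (huv : u.1 < v.1) (hm : m0 φ u v = some w) (hc : C u = C v) : C w = C u :=
  h u v w (by omega) hu hv1 hv (by unfold md; rw [if_pos huv, hm]) hc

theorem good_tab {φ : F3} {C : ℕ × ℕ → Bool} (h : Good φ C) {s t i : ℕ} (r : ℕ)
    (hi : i < 3 * φ.length) (ht : t < 15) (hst : s < t) (hr : tab s t = r) (hr15 : r < 15)
    (hc : C (s, i) = C (t, i)) : C (r, i) = C (s, i) := by
  refine good_m0 h (u := (s, i)) (v := (t, i)) hi ht hi hst ?_ hc
  unfold m0
  rw [if_pos ⟨rfl, by simpa [hr] using hr15⟩]
  simp [hr]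

theorem tab_lit (s : ℕ) (b : Bool) (h : s = 3 ∨ s = 4) : tab s (lty b) = 15 := by
  rcases h with rfl | rfl <;> cases b <;> rfl

theorem tab_lit2 (b : Bool) : tab (lty b) 14 = 15 := by
  cases b <;> rfl

theorem m0_c1 {φ : F3} {j : ℕ} (hj : j < φ.length) :
    m0 φ (3, j) (lty (lt φ (3 * j)).1, (lt φ (3 * j)).2) = some (12, j) := by
  have h1 := tab_lit 3 (lt φ (3 * j)).1 (Or.inl rfl)
  have h2 := lty_cases (lt φ (3 * j)).1
  unfold m0
  simp only [h1]
  rw [if_neg (by omega), if_neg (by omega), if_neg (by omega), if_pos ⟨by trivial, hj, by trivial⟩]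

theorem m0_c2 {φ : F3} {j : ℕ} (hj : j < φ.length) :
    m0 φ (4, j) (lty (lt φ (3 * j + 1)).1, (lt φ (3 * j + 1)).2) = some (13, j) := by
  have h1 := tab_lit 4 (lt φ (3 * j + 1)).1 (Or.inr rfl)
  have h2 := lty_cases (lt φ (3 * j + 1)).1
  unfold m0
  simp only [h1]
  rw [if_neg (by omega), if_neg (by omega), if_neg (by omega), if_neg (by omega),
    if_pos ⟨by trivial, hj, by trivial⟩]

theorem m0_c3 {φ : F3} {j : ℕ} (hj : j < φ.length) :
    m0 φ (lty (lt φ (3 * j + 2)).1, (lt φ (3 * j + 2)).2) (14, j) = some (5, j) := by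
  have h1 := tab_lit2 (lt φ (3 * j + 2)).1
  have h2 := lty_cases (lt φ (3 * j + 2)).1
  unfold m0
  simp only [h1]
  rw [if_neg (by omega), if_neg (by omega), if_neg (by omega), if_neg (by omega),
    if_neg (by omega), if_pos ⟨by trivial, hj, by trivial⟩]

theorem good_base {φ : F3} {C : ℕ × ℕ → Bool} (h : Good φ C) {i : ℕ} (hi : i < 3 * φ.length) :
    (C (1, i) = C (0, i) ∧ C (2, i) = C (0, i) ∧ C (3, i) = C (0, i) ∧ C (4, i) = C (0, i)) ∧
    (C (6, i) = C (5, i) ∧ C (7, i) = C (5, i) ∧ C (8, i) = C (5, i) ∧ C (9, i) = C (5, i)) :=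
  base _ _ _ _ _ _ _ _ _ _
    (good_tab h 0 hi (by norm_num) (by norm_num) rfl (by norm_num))
    (good_tab h 9 hi (by norm_num) (by norm_num) rfl (by norm_num))
    (good_tab h 4 hi (by norm_num) (by norm_num) rfl (by norm_num))
    (good_tab h 3 hi (by norm_num) (by norm_num) rfl (by norm_num))
    (good_tab h 7 hi (by norm_num) (by norm_num) rfl (by norm_num))
    (good_tab h 1 hi (by norm_num) (by norm_num) rfl (by norm_num))
    (good_tab h 6 hi (by norm_num) (by norm_num) rfl (by norm_num))
    (good_tab h 8 hi (by norm_num) (by norm_num) rfl (by norm_num))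
    (good_tab h 5 hi (by norm_num) (by norm_num) rfl (by norm_num))
    (good_tab h 2 hi (by norm_num) (by norm_num) rfl (by norm_num))
    (good_tab h 0 hi (by norm_num) (by norm_num) rfl (by norm_num))

theorem good_all {φ : F3} {C : ℕ × ℕ → Bool} (h : Good φ C) (i : ℕ) (hi : i < 3 * φ.length) :
    C (0, i) = C (0, 0) ∧ C (5, i) = C (5, 0) := by
  induction i with
  | zero => exact ⟨rfl, rfl⟩
  | succ i ih =>
    have hi' : i < 3 * φ.length := by omega
    obtain ⟨h1, h2⟩ := ih hi'
    obtain ⟨⟨a1, a2, a3, a4⟩, a6, a7, a8, a9⟩ := good_base h hi'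
    obtain ⟨⟨b1, b2, b3, b4⟩, b6, b7, b8, b9⟩ := good_base h hi
    have e1 : C (7, i + 1) = C (8, i) := by
      refine good_m0 h (u := (8, i)) (v := (9, i)) hi' (by norm_num) hi' (by norm_num) ?_
        (a8.trans a9.symm)
      unfold m0 tab
      simp
      exact hi
    have e2 : C (2, i + 1) = C (3, i) := by
      refine good_m0 h (u := (3, i)) (v := (4, i)) hi' (by norm_num) hi' (by norm_num) ?_
        (a3.trans a4.symm)
      unfold m0 tab
      simp
      exact hi
    exact ⟨b2.symm.trans (e2.trans (a3.trans h1)), b7.symm.trans (e1.trans (a8.trans h2))⟩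

theorem sound {φ : F3} {C : ℕ × ℕ → Bool} (h : Good φ C) (hb : Bounded3 φ)
    {u v : ℕ × ℕ} (hu1 : u.1 < 15) (hu2 : u.2 < 3 * φ.length) (hv1 : v.1 < 15)
    (hv2 : v.2 < 3 * φ.length) (huv : C u ≠ C v) : SAT3 φ := by
  set σ := C (0, 0) with hσ
  set ρ := C (5, 0) with hρ
  have hS : ∀ k < 5, ∀ i < 3 * φ.length, C (k, i) = σ := by
    intro k hk i hi
    obtain ⟨⟨a1, a2, a3, a4⟩, _⟩ := good_base h hi
    have h0 := (good_all h i hi).1
    have hk' : k = 0 ∨ k = 1 ∨ k = 2 ∨ k = 3 ∨ k = 4 := by omega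
    rcases hk' with rfl | rfl | rfl | rfl | rfl
    · exact h0
    · exact a1.trans h0
    · exact a2.trans h0
    · exact a3.trans h0
    · exact a4.trans h0
  have hT : ∀ k, 5 ≤ k → k < 10 → ∀ i < 3 * φ.length, C (k, i) = ρ := by
    intro k hk1 hk2 i hi
    obtain ⟨_, a6, a7, a8, a9⟩ := good_base h hi
    have h0 := (good_all h i hi).2
    have hk' : k = 5 ∨ k = 6 ∨ k = 7 ∨ k = 8 ∨ k = 9 := by omega
    rcases hk' with rfl | rfl | rfl | rfl | rfl
    · exact h0
    · exact a6.trans h0
    · exact a7.trans h0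
    · exact a8.trans h0
    · exact a9.trans h0
  have hne : σ ≠ ρ := by
    intro he
    apply huv
    have key : ∀ k < 15, ∀ i < 3 * φ.length, C (k, i) = σ := by
      intro k hk i hi
      by_cases h5 : k < 5
      · exact hS k h5 i hi
      · by_cases h10 : k < 10
        · exact (hT k (by omega) h10 i hi).trans he.symm
        · have e : ∀ s t, s < 5 → 5 ≤ t → t < 10 → C (s, i) = C (t, i) := fun s t h1 h2 h3 =>
            (hS s h1 i hi).trans (he.trans (hT t h2 h3 i hi).symm)
          have hk' : k = 10 ∨ k = 11 ∨ k = 12 ∨ k = 13 ∨ k = 14 := by omega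
          rcases hk' with rfl | rfl | rfl | rfl | rfl
          · exact (good_tab h (s := 1) (t := 5) 10 hi (by norm_num) (by norm_num) rfl
              (by norm_num) (e 1 5 (by norm_num) (by norm_num) (by norm_num))).trans
              (hS 1 (by norm_num) i hi)
          · exact (good_tab h (s := 1) (t := 6) 11 hi (by norm_num) (by norm_num) rfl
              (by norm_num) (e 1 6 (by norm_num) (by norm_num) (by norm_num))).trans
              (hS 1 (by norm_num) i hi)
          · exact (good_tab h (s := 1) (t := 7) 12 hi (by norm_num) (by norm_num) rfl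
              (by norm_num) (e 1 7 (by norm_num) (by norm_num) (by norm_num))).trans
              (hS 1 (by norm_num) i hi)
          · exact (good_tab h (s := 2) (t := 5) 13 hi (by norm_num) (by norm_num) rfl
              (by norm_num) (e 2 5 (by norm_num) (by norm_num) (by norm_num))).trans
              (hS 2 (by norm_num) i hi)
          · exact (good_tab h (s := 2) (t := 6) 14 hi (by norm_num) (by norm_num) rfl
              (by norm_num) (e 2 6 (by norm_num) (by norm_num) (by norm_num))).trans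
              (hS 2 (by norm_num) i hi)
    rw [show u = (u.1, u.2) from rfl, show v = (v.1, v.2) from rfl, key _ hu1 _ hu2,
      key _ hv1 _ hv2]
  obtain ⟨τ, hτ⟩ : ∃ τ : ℕ → Bool, ∀ i, τ i = (C (11, i) == ρ) := ⟨_, fun _ => rfl⟩
  have hor : ∀ x : Bool, x ≠ ρ → x = σ := by
    intro x hx
    revert hx hne
    cases x <;> cases σ <;> cases ρ <;> simp
  have hlit : ∀ l < 3 * φ.length, C (lty (lt φ l).1, (lt φ l).2) = ρ →
      τ (lt φ l).2 = (lt φ l).1 := by
    intro l hl hc
    have hi := lt_lt hb hl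
    rw [hτ]
    cases hb' : (lt φ l).1 with
    | true =>
      rw [hb'] at hc
      rw [beq_iff_eq]
      exact hc
    | false =>
      rw [hb'] at hc
      rw [beq_eq_false_iff_ne]
      intro h11
      have h1 := good_tab h (s := 10) (t := 11) 1 hi (by norm_num) (by norm_num) rfl
        (by norm_num) (hc.trans h11.symm)
      rw [hS 1 (by norm_num) _ hi] at h1
      exact hne (h1.trans hc)
  refine ⟨τ, (sat_iff φ τ).2 fun j hj => ?_⟩
  have hj3 : j < 3 * φ.length := by omega
  by_cases c1 : C (lty (lt φ (3 * j)).1, (lt φ (3 * j)).2) = ρ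
  · exact Or.inl (hlit _ (by omega) c1)
  · by_cases c2 : C (lty (lt φ (3 * j + 1)).1, (lt φ (3 * j + 1)).2) = ρ
    · exact Or.inr (Or.inl (hlit _ (by omega) c2))
    · by_cases c3 : C (lty (lt φ (3 * j + 2)).1, (lt φ (3 * j + 2)).2) = ρ
      · exact Or.inr (Or.inr (hlit _ (by omega) c3))
      · exfalso
        have d1 := hor _ c1
        have d2 := hor _ c2
        have d3 := hor _ c3
        have l1 := lty_cases (lt φ (3 * j)).1
        have l2 := lty_cases (lt φ (3 * j + 1)).1
        have l3 := lty_cases (lt φ (3 * j + 2)).1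
        have e1 : C (12, j) = C (3, j) := good_m0 h (u := (3, j)) hj3
          (by change lty _ < 15; omega) (lt_lt hb (by omega)) (by change 3 < lty _; omega)
          (m0_c1 hj) ((hS 3 (by norm_num) _ hj3).trans d1.symm)
        have e2 : C (13, j) = C (4, j) := good_m0 h (u := (4, j)) hj3
          (by change lty _ < 15; omega) (lt_lt hb (by omega)) (by change 4 < lty _; omega)
          (m0_c2 hj) ((hS 4 (by norm_num) _ hj3).trans d2.symm)
        rw [hS 3 (by norm_num) _ hj3] at e1
        rw [hS 4 (by norm_num) _ hj3] at e2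
        have e3 := good_tab h (s := 12) (t := 13) 14 hj3 (by norm_num) (by norm_num) rfl
          (by norm_num) (e1.trans e2.symm)
        have e4 : C (5, j) = C (lty (lt φ (3 * j + 2)).1, (lt φ (3 * j + 2)).2) :=
          good_m0 h (v := (14, j)) (lt_lt hb (by omega)) (by norm_num) hj3
          (by change lty _ < 14; omega) (m0_c3 hj) (d3.trans (e3.trans e1).symm)
        rw [hT 5 (by norm_num) (by norm_num) _ hj3, d3] at e4
        exact hne e4.symm

/-- Whether the literal at an occurrence is true. -/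
def LT (φ : F3) (τ : ℕ → Bool) (l : ℕ) : Bool := τ (lt φ l).2 == (lt φ l).1

/-- The colouring of an assignment. -/
def col (φ : F3) (τ : ℕ → Bool) (u : ℕ × ℕ) : Bool :=
  if u.1 < 5 then false else if u.1 < 10 then true else if u.1 = 10 then !(τ u.2) else
  if u.1 = 11 then τ u.2 else
  if u.1 = 12 then decide (u.2 < φ.length) && LT φ τ (3 * u.2) && !(LT φ τ (3 * u.2 + 2)) else
  if u.1 = 13 then decide (u.2 < φ.length) && LT φ τ (3 * u.2 + 1) && !(LT φ τ (3 * u.2)) &&
    !(LT φ τ (3 * u.2 + 2)) else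
  decide (u.2 < φ.length) && !(LT φ τ (3 * u.2 + 2))

theorem col_S {φ : F3} {τ : ℕ → Bool} {k i : ℕ} (h : k < 5) : col φ τ (k, i) = false := by
  unfold col
  rw [if_pos h]

theorem col_T {φ : F3} {τ : ℕ → Bool} {k i : ℕ} (h : ¬ k < 5) (h' : k < 10) :
    col φ τ (k, i) = true := by
  unfold col
  rw [if_neg h, if_pos h']

theorem col_lit {φ : F3} {τ : ℕ → Bool} {l : ℕ} :
    col φ τ (lty (lt φ l).1, (lt φ l).2) = LT φ τ l := by
  unfold LT
  cases h : (lt φ l).1
  · have : lty false = 10 := rfl
    rw [this]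
    unfold col
    simp
  · have : lty true = 11 := rfl
    rw [this]
    unfold col
    simp

/-- A check of the table. -/
def chk3 (s t : ℕ) : Bool :=
  !(decide (tab s t < 15)) || ((s == 10) && (t == 11)) || ((s == 12) && (t == 13)) ||
  (decide (s < 10) && decide (t < 10) && (!(decide (s < 5) == decide (t < 5)) ||
    (decide (tab s t < 10) && (decide (tab s t < 5) == decide (s < 5)))))

theorem chk3_all : ((List.range 15).all fun s => (List.range 15).all fun t => chk3 s t) = true := by
  decide +kernel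

theorem complete {φ : F3} {τ : ℕ → Bool} (hτ : ∀ j < φ.length, τ (lt φ (3 * j)).2 =
    (lt φ (3 * j)).1 ∨ τ (lt φ (3 * j + 1)).2 = (lt φ (3 * j + 1)).1 ∨
    τ (lt φ (3 * j + 2)).2 = (lt φ (3 * j + 2)).1) : Good φ (col φ τ) := by
  have key : ∀ u v w : ℕ × ℕ, u.1 < 15 → v.1 < 15 → m0 φ u v = some w →
      col φ τ u = col φ τ v → col φ τ w = col φ τ u := by
    rintro ⟨s, i⟩ ⟨t, i'⟩ w hs ht h hc
    unfold m0 at h
    simp only at h hs ht
    split_ifs at h with h1 h2 h3 h4 h5 h6 <;> rw [Option.some.injEq] at h <;> subst h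
    · obtain ⟨rfl, h1⟩ := h1
      have hchk := List.all_eq_true.1 (List.all_eq_true.1 chk3_all s (List.mem_range.2 hs)) t
        (List.mem_range.2 ht)
      unfold chk3 at hchk
      rw [decide_eq_true h1] at hchk
      simp only [Bool.not_true, Bool.false_or, Bool.or_eq_true, Bool.and_eq_true, beq_iff_eq,
        decide_eq_true_eq, Bool.not_eq_true', beq_eq_false_iff_ne, ne_eq, decide_eq_decide] at hchk
      rcases hchk with (⟨rfl, rfl⟩ | ⟨rfl, rfl⟩) | ⟨⟨h2, h3⟩, h4⟩
      · exfalso
        unfold col at hc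
        simp at hc
      · have h14 : tab 12 13 = 14 := rfl
        rw [h14]
        unfold col at hc ⊢
        simp only [show ¬ (12 : ℕ) < 5 by norm_num, show ¬ (12 : ℕ) < 10 by norm_num,
          show ¬ (12 : ℕ) = 10 by norm_num, show ¬ (12 : ℕ) = 11 by norm_num, if_true, if_false,
          show ¬ (13 : ℕ) < 5 by norm_num, show ¬ (13 : ℕ) < 10 by norm_num,
          show ¬ (13 : ℕ) = 10 by norm_num, show ¬ (13 : ℕ) = 11 by norm_num,
          show ¬ (13 : ℕ) = 12 by norm_num, show ¬ (14 : ℕ) < 5 by norm_num,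
          show ¬ (14 : ℕ) < 10 by norm_num, show ¬ (14 : ℕ) = 10 by norm_num,
          show ¬ (14 : ℕ) = 11 by norm_num, show ¬ (14 : ℕ) = 12 by norm_num,
          show ¬ (14 : ℕ) = 13 by norm_num] at hc ⊢
        by_cases hj : i < φ.length
        · have hsat : LT φ τ (3 * i) = true ∨ LT φ τ (3 * i + 1) = true ∨
              LT φ τ (3 * i + 2) = true := by
            unfold LT
            simp only [beq_iff_eq]
            exact hτ i hj
          simp only [decide_eq_true hj, Bool.true_and] at hc ⊢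
          revert hsat hc
          cases LT φ τ (3 * i) <;> cases LT φ τ (3 * i + 1) <;> cases LT φ τ (3 * i + 2) <;> simp
        · simp [hj]
      · rcases h4 with h4 | ⟨h4, h5⟩
        · exfalso
          by_cases hs5 : s < 5
          · rw [col_S hs5, col_T (by tauto) h3] at hc
            simp at hc
          · rw [col_T hs5 h2, col_S (by tauto)] at hc
            simp at hc
        · by_cases hs5 : s < 5
          · rw [col_S hs5, col_S (by tauto)]
          · rw [col_T hs5 h2, col_T (by tauto) h4]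
    · obtain ⟨_, rfl, rfl, _⟩ := h2
      rw [col_T (by norm_num) (by norm_num), col_T (by norm_num) (by norm_num)]
    · obtain ⟨_, rfl, rfl, _⟩ := h3
      rw [col_S (by norm_num), col_S (by norm_num)]
    · obtain ⟨rfl, h4, h5⟩ := h4
      rw [h5, col_lit, col_S (k := 3) (by norm_num)] at hc
      rw [col_S (k := 3) (by norm_num)]
      have hc' := hc.symm
      unfold col
      simp [hc']
    · obtain ⟨rfl, h4, h5'⟩ := h5
      rw [h5', col_lit, col_S (k := 4) (by norm_num)] at hc
      rw [col_S (k := 4) (by norm_num)]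
      have hc' := hc.symm
      unfold col
      simp [hc']
    · obtain ⟨rfl, h4, h5'⟩ := h6
      rw [h5', col_lit] at hc
      exfalso
      unfold col at hc
      simp [h4] at hc
  intro u v w hu1 _ hv1 _ h hc
  unfold md at h
  split_ifs at h
  · exact key u v w hu1 hv1 h hc
  · exact (key v u w hv1 hu1 h hc.symm).trans hc.symm

end Pool.Agent.Q329.PSy
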