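import Pool.Agent.NPC.Classes
import Pool.Agent.H671R2.ZDefs

/-!
# Path systems and their reductions: definitions
-/

namespace Pool.Agent.Q329.PSy

open Pool.Agent.NPC

/-- `P` is a consistent path system in the graph `G`: for all vertices `u`, `v` the list `P u v` is
the sequence of vertices of a simple path of `G` from `u` to `v`, the path `P v u` is the same path
read backwards, and for all vertices `x`, `y` occurring on `P u v` in this order the part of `P u v`
from `x` to `y` is `P x y`. -/
structure IsPathSystem {n : ℕ} (G : SimpleGraph (Fin n)) (P : Fin n → Fin n → List (Fin n)) :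
    Prop where
  head : ∀ u v, (P u v).head? = some u
  last : ∀ u v, (P u v).getLast? = some v
  path : ∀ u v, (P u v).IsChain G.Adj
  simple : ∀ u v, (P u v).Nodup
  back : ∀ u v, P v u = (P u v).reverse
  consistent : ∀ u v x y A B C, P u v = A ++ x :: (B ++ y :: C) → P x y = x :: (B ++ [y])

/-- The set `A` of vertices (with its complement) is a reduction of the path system: both sets are
nonempty and contain all vertices of the paths that join two vertices of the set. -/
def IsReduction {n : ℕ} (P : Fin n → Fin n → List (Fin n)) (A : Finset (Fin n)) : Prop :=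
  A.Nonempty ∧ (∃ v, v ∉ A) ∧ (∀ u ∈ A, ∀ v ∈ A, ∀ w ∈ P u v, w ∈ A) ∧
    ∀ u, u ∉ A → ∀ v, v ∉ A → ∀ w ∈ P u v, w ∉ A

/-- The path system has no reduction. -/
def Irreducible {n : ℕ} (P : Fin n → Fin n → List (Fin n)) : Prop := ¬ ∃ A, IsReduction P A

/-- The input: the adjacency matrix of the graph and the explicit table of all paths. -/
noncomputable def inst {n : ℕ} (G : SimpleGraph (Fin n)) (P : Fin n → Fin n → List (Fin n)) :
    List (List Bool) × List (List (List ℕ)) :=
  (R671.adjMatrix G, List.ofFn fun u => List.ofFn fun v => (P u v).map Fin.val)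

/-- The decision problem: the input is a graph with a consistent path system which has a
reduction. -/
def HasReduction (I : List (List Bool) × List (List (List ℕ))) : Prop :=
  ∃ (n : ℕ) (G : SimpleGraph (Fin n)) (P : Fin n → Fin n → List (Fin n)),
    inst G P = I ∧ IsPathSystem G P ∧ ∃ A, IsReduction P A

end Pool.Agent.Q329.PSy
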