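import Pool.Agent.Q329.PSy.Defs

/-!
# Path systems with paths of length at most two
-/

namespace Pool.Agent.Q329.PSy

variable {n : ℕ}

/-- A symmetric partial function giving the middle vertices of the paths of length two. -/
structure IsMid (mid : Fin n → Fin n → Option (Fin n)) : Prop where
  symm : ∀ u v, mid u v = mid v u
  irr : ∀ u, mid u u = none
  ne : ∀ u v w, mid u v = some w → w ≠ u ∧ w ≠ v
  sub : ∀ u v w, mid u v = some w → mid u w = none ∧ mid w v = none

/-- The graph of the pairs without a middle vertex. -/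
def mG {mid : Fin n → Fin n → Option (Fin n)} (h : IsMid mid) : SimpleGraph (Fin n) where
  Adj u v := u ≠ v ∧ mid u v = none
  symm := ⟨fun u v h' => ⟨h'.1.symm, by rw [h.symm]; exact h'.2⟩⟩
  loopless := ⟨fun u h' => h'.1 rfl⟩

/-- The paths. -/
def mP (mid : Fin n → Fin n → Option (Fin n)) (u v : Fin n) : List (Fin n) :=
  if u = v then [u] else match mid u v with
    | none => [u, v]
    | some w => [u, w, v]

theorem mP_self (mid : Fin n → Fin n → Option (Fin n)) (u : Fin n) : mP mid u u = [u] := by
  unfold mP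
  rw [if_pos rfl]

theorem mP_none {mid : Fin n → Fin n → Option (Fin n)} {u v : Fin n} (h : u ≠ v)
    (h' : mid u v = none) : mP mid u v = [u, v] := by
  unfold mP
  rw [if_neg h, h']

theorem mP_some {mid : Fin n → Fin n → Option (Fin n)} {u v w : Fin n} (h : u ≠ v)
    (h' : mid u v = some w) : mP mid u v = [u, w, v] := by
  unfold mP
  rw [if_neg h, h']

theorem split3 {α : Type} {a b c x y : α} {A B C : List α}
    (h : [a, b, c] = A ++ x :: (B ++ y :: C)) :
    (x = a ∧ y = b ∧ B = []) ∨ (x = b ∧ y = c ∧ B = []) ∨ (x = a ∧ y = c ∧ B = [b]) := by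
  rcases A with _ | ⟨a1, _ | ⟨a2, A⟩⟩
  · rw [List.nil_append, List.cons.injEq] at h
    obtain ⟨h1, h2⟩ := h
    rcases B with _ | ⟨b1, _ | ⟨b2, B⟩⟩
    · rw [List.nil_append, List.cons.injEq] at h2
      exact Or.inl ⟨h1.symm, h2.1.symm, rfl⟩
    · simp only [List.cons_append, List.nil_append, List.cons.injEq] at h2
      exact Or.inr (Or.inr ⟨h1.symm, h2.2.1.symm, by rw [h2.1]⟩)
    · have := congrArg List.length h2
      simp at this
  · rw [List.cons_append, List.nil_append, List.cons.injEq, List.cons.injEq] at h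
    obtain ⟨_, h1, h2⟩ := h
    rcases B with _ | ⟨b1, B⟩
    · rw [List.nil_append, List.cons.injEq] at h2
      exact Or.inr (Or.inl ⟨h1.symm, h2.1.symm, rfl⟩)
    · have := congrArg List.length h2
      simp at this
  · have := congrArg List.length h
    simp at this
    omega

theorem split2 {α : Type} {a b x y : α} {A B C : List α}
    (h : [a, b] = A ++ x :: (B ++ y :: C)) : x = a ∧ y = b ∧ B = [] := by
  rcases A with _ | ⟨a1, A⟩
  · rw [List.nil_append, List.cons.injEq] at h
    obtain ⟨h1, h2⟩ := h
    rcases B with _ | ⟨b1, B⟩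
    · rw [List.nil_append, List.cons.injEq] at h2
      exact ⟨h1.symm, h2.1.symm, rfl⟩
    · have := congrArg List.length h2
      simp at this
  · have := congrArg List.length h
    simp at this
    omega

theorem isPathSystem {mid : Fin n → Fin n → Option (Fin n)} (h : IsMid mid) :
    IsPathSystem (mG h) (mP mid) := by
  have hcases : ∀ u v, (u = v ∧ mP mid u v = [u]) ∨ (u ≠ v ∧ mid u v = none ∧ mP mid u v = [u, v])
      ∨ ∃ w, u ≠ v ∧ mid u v = some w ∧ mP mid u v = [u, w, v] := by
    intro u v
    by_cases huv : u = v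
    · left
      exact ⟨huv, by rw [← huv]; exact mP_self mid u⟩
    · right
      cases hm : mid u v with
      | none => exact Or.inl ⟨huv, rfl, mP_none huv hm⟩
      | some w => exact Or.inr ⟨w, huv, rfl, mP_some huv hm⟩
  constructor
  · intro u v
    rcases hcases u v with ⟨h1, h2⟩ | ⟨h1, h2, h3⟩ | ⟨w, h1, h2, h3⟩
    · rw [h2]; rfl
    · rw [h3]; rfl
    · rw [h3]; rfl
  · intro u v
    rcases hcases u v with ⟨h1, h2⟩ | ⟨h1, h2, h3⟩ | ⟨w, h1, h2, h3⟩
    · rw [h2, h1]; rfl
    · rw [h3]; rfl
    · rw [h3]; rfl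
  · intro u v
    rcases hcases u v with ⟨h1, h2⟩ | ⟨h1, h2, h3⟩ | ⟨w, h1, h2, h3⟩
    · rw [h2]; simp
    · rw [h3]
      simp only [List.isChain_cons_cons, List.isChain_singleton, and_true]
      exact ⟨h1, h2⟩
    · rw [h3]
      simp only [List.isChain_cons_cons, List.isChain_singleton, and_true]
      exact ⟨⟨(h.ne u v w h2).1.symm, (h.sub u v w h2).1⟩, (h.ne u v w h2).2, (h.sub u v w h2).2⟩
  · intro u v
    rcases hcases u v with ⟨h1, h2⟩ | ⟨h1, h2, h3⟩ | ⟨w, h1, h2, h3⟩
    · rw [h2]; simp
    · rw [h3]; simp [h1]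
    · rw [h3]; simp [h1, (h.ne u v w h2).1.symm, (h.ne u v w h2).2]
  · intro u v
    rcases hcases u v with ⟨h1, h2⟩ | ⟨h1, h2, h3⟩ | ⟨w, h1, h2, h3⟩
    · rw [h1, mP_self]; rfl
    · rw [h3, mP_none h1.symm (by rw [h.symm]; exact h2)]; rfl
    · rw [h3, mP_some h1.symm (w := w) (by rw [h.symm]; exact h2)]; rfl
  · intro u v x y A B C hd
    rcases hcases u v with ⟨h1, h2⟩ | ⟨h1, h2, h3⟩ | ⟨w, h1, h2, h3⟩
    · rw [h2] at hd
      have := congrArg List.length hd
      simp at this
      omega
    · have h4 := h3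
      rw [h3] at hd
      obtain ⟨rfl, rfl, rfl⟩ := split2 hd
      rw [h4]; rfl
    · have h4 := h3
      rw [h3] at hd
      rcases split3 hd with ⟨rfl, rfl, rfl⟩ | ⟨rfl, rfl, rfl⟩ | ⟨rfl, rfl, rfl⟩
      · rw [mP_none (h.ne _ _ _ h2).1.symm (h.sub _ _ _ h2).1]; rfl
      · rw [mP_none (h.ne _ _ _ h2).2 (h.sub _ _ _ h2).2]; rfl
      · rw [h4]; rfl

/-- Reductions and colourings. -/
theorem exists_reduction_iff {mid : Fin n → Fin n → Option (Fin n)} (h : IsMid mid) :
    (∃ A, IsReduction (mP mid) A) ↔ ∃ c : Fin n → Bool, (∃ u v, c u ≠ c v) ∧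
      ∀ u v w, mid u v = some w → c u = c v → c w = c u := by
  classical
  constructor
  · rintro ⟨A, ⟨a, ha⟩, ⟨b, hb⟩, h1, h2⟩
    refine ⟨fun v => decide (v ∈ A), ⟨a, b, by simp [ha, hb]⟩, fun u v w hw huv => ?_⟩
    have huv' : u ≠ v := by
      rintro rfl
      rw [h.irr] at hw
      simp at hw
    have hmem : w ∈ mP mid u v := by
      rw [mP_some huv' hw]
      simp
    by_cases hu : u ∈ A
    · have hv : v ∈ A := by simpa [hu] using huv
      have := h1 u hu v hv w hmem
      simp [this, hu]
    · have hv : v ∉ A := by simpa [hu] using huv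
      have := h2 u hu v hv w hmem
      simp [this, hu]
  · rintro ⟨c, ⟨a, b, hab⟩, hc⟩
    have key : ∀ u v, c u = c v → ∀ w ∈ mP mid u v, c w = c u := by
      intro u v huv w hw
      by_cases he : u = v
      · rw [← he, mP_self, List.mem_singleton] at hw
        rw [hw]
      · cases hm : mid u v with
        | none =>
          rw [mP_none he hm] at hw
          simp only [List.mem_cons, List.not_mem_nil, or_false] at hw
          rcases hw with rfl | rfl
          · rfl
          · exact huv.symm
        | some x =>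
          rw [mP_some he hm] at hw
          simp only [List.mem_cons, List.not_mem_nil, or_false] at hw
          rcases hw with rfl | rfl | rfl
          · rfl
          · exact hc u v w hm huv
          · exact huv.symm
    refine ⟨Finset.univ.filter fun v => c v = true, ?_, ?_, ?_, ?_⟩
    · cases hca : c a with
      | true => exact ⟨a, by simp [hca]⟩
      | false =>
        refine ⟨b, ?_⟩
        rw [Finset.mem_filter]
        refine ⟨Finset.mem_univ _, ?_⟩
        cases hcb : c b with
        | true => rfl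
        | false => exact absurd (hca.trans hcb.symm) hab
    · cases hca : c a with
      | false => exact ⟨a, by simp [hca]⟩
      | true =>
        refine ⟨b, ?_⟩
        rw [Finset.mem_filter]
        rintro ⟨_, hcb⟩
        exact hab (hca.trans hcb.symm)
    · intro u hu v hv w hw
      rw [Finset.mem_filter] at hu hv ⊢
      exact ⟨Finset.mem_univ _, (key u v (hu.2.trans hv.2.symm) w hw).trans hu.2⟩
    · intro u hu v hv w hw hw2
      rw [Finset.mem_filter] at hu hv hw2
      simp only [Finset.mem_univ, true_and, Bool.not_eq_true] at hu hv hw2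
      have := key u v (hu.trans hv.symm) w hw
      rw [hw2, hu] at this
      simp at this

end Pool.Agent.Q329.PSy
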