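import Pool.Agent.Q329.PSy.Base
import Pool.Agent.Q329.PSy.Gen
import Pool.Agent.NPC.Sat2

/-!
# The middle vertices of the path system of a formula, on labels
-/

namespace Pool.Agent.Q329.PSy

open Pool.Agent.NPC

/-- Formulas. -/
abbrev F3 : Type := List (Lit ℕ × Lit ℕ × Lit ℕ)

/-- The list of the occurrences of literals. -/
def lits (φ : F3) : List (Bool × ℕ) := φ.flatMap fun c => [c.1, c.2.1, c.2.2]

/-- The literal at an occurrence. -/
def lt (φ : F3) (l : ℕ) : Bool × ℕ := (lits φ).getD l (false, 0)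

theorem getD_lits (φ : F3) (j : ℕ) (hj : j < φ.length) :
    lt φ (3 * j) = (φ[j]).1 ∧ lt φ (3 * j + 1) = (φ[j]).2.1 ∧ lt φ (3 * j + 2) = (φ[j]).2.2 := by
  unfold lt lits
  induction φ generalizing j with
  | nil => simp at hj
  | cons c φ ih =>
    rw [List.flatMap_cons]
    cases j with
    | zero => simp
    | succ j =>
      have h1 := ih j (by simpa using hj)
      have e : ∀ k, ([c.1, c.2.1, c.2.2] ++ φ.flatMap fun c => [c.1, c.2.1, c.2.2]).getD
          (3 * (j + 1) + k) (false, 0) =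
          (φ.flatMap fun c => [c.1, c.2.1, c.2.2]).getD (3 * j + k) (false, 0) := by
        intro k
        rw [show 3 * (j + 1) + k = (3 * j + k) + 3 by ring]
        rfl
      refine ⟨(e 0).trans h1.1, (e 1).trans h1.2.1, (e 2).trans h1.2.2⟩

theorem lt_lt {φ : F3} (hb : Bounded3 φ) {l : ℕ} (hl : l < 3 * φ.length) :
    (lt φ l).2 < 3 * φ.length := by
  have hj : l / 3 < φ.length := by omega
  obtain ⟨e1, e2, e3⟩ := getD_lits φ (l / 3) hj
  obtain ⟨b1, b2, b3⟩ := hb _ (List.getElem_mem hj)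
  have h2 : l = 3 * (l / 3) ∨ l = 3 * (l / 3) + 1 ∨ l = 3 * (l / 3) + 2 := by omega
  rcases h2 with h2 | h2 | h2 <;> rw [h2]
  · rw [e1]; exact b1
  · rw [e2]; exact b2
  · rw [e3]; exact b3

/-- The satisfaction of a formula in terms of the occurrences of literals. -/
theorem sat_iff (φ : F3) (τ : ℕ → Bool) :
    (∀ c ∈ φ, τ c.1.2 = c.1.1 ∨ τ c.2.1.2 = c.2.1.1 ∨ τ c.2.2.2 = c.2.2.1) ↔
      ∀ j < φ.length, τ (lt φ (3 * j)).2 = (lt φ (3 * j)).1 ∨
        τ (lt φ (3 * j + 1)).2 = (lt φ (3 * j + 1)).1 ∨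
        τ (lt φ (3 * j + 2)).2 = (lt φ (3 * j + 2)).1 := by
  constructor
  · intro h j hj
    have h1 := h _ (List.getElem_mem hj)
    obtain ⟨e1, e2, e3⟩ := getD_lits φ j hj
    rwa [← e1, ← e2, ← e3] at h1
  · intro h c hc
    obtain ⟨j, hj, rfl⟩ := List.getElem_of_mem hc
    have h1 := h j hj
    obtain ⟨e1, e2, e3⟩ := getD_lits φ j hj
    rwa [e1, e2, e3] at h1

/-- The type of the middle vertex for two vertices with the same index (15 for none). -/
def tab (s t : ℕ) : ℕ :=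
  if s = 4 ∧ t = 9 then 0 else if s = 0 ∧ t = 5 then 9 else if s = 2 ∧ t = 8 then 4 else
  if s = 0 ∧ t = 2 then 3 else if s = 3 ∧ t = 9 then 7 else if s = 0 ∧ t = 8 then 1 else
  if s = 0 ∧ t = 7 then 6 else if s = 5 ∧ t = 7 then 8 else if s = 3 ∧ t = 6 then 5 else
  if s = 1 ∧ t = 9 then 2 else if s = 1 ∧ t = 4 then 0 else
  if s = 1 ∧ t = 5 then 10 else if s = 1 ∧ t = 6 then 11 else if s = 1 ∧ t = 7 then 12 else
  if s = 2 ∧ t = 5 then 13 else if s = 2 ∧ t = 6 then 14 else
  if s = 10 ∧ t = 11 then 1 else if s = 12 ∧ t = 13 then 14 else 15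

/-- The type of the vertex of a literal. -/
def lty (b : Bool) : ℕ := if b then 11 else 10

/-- The middle vertex for two vertices, the first one with the smaller type. A vertex is given by
its type (less than `15`) and its index. -/
def m0 (φ : F3) (u v : ℕ × ℕ) : Option (ℕ × ℕ) :=
  if u.2 = v.2 ∧ tab u.1 v.1 < 15 then some (tab u.1 v.1, u.2) else
  if u.2 = v.2 ∧ u.1 = 8 ∧ v.1 = 9 ∧ u.2 + 1 < 3 * φ.length then some (7, u.2 + 1) else
  if u.2 = v.2 ∧ u.1 = 3 ∧ v.1 = 4 ∧ u.2 + 1 < 3 * φ.length then some (2, u.2 + 1) else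
  if u.1 = 3 ∧ u.2 < φ.length ∧ v = (lty (lt φ (3 * u.2)).1, (lt φ (3 * u.2)).2) then
    some (12, u.2) else
  if u.1 = 4 ∧ u.2 < φ.length ∧ v = (lty (lt φ (3 * u.2 + 1)).1, (lt φ (3 * u.2 + 1)).2) then
    some (13, u.2) else
  if v.1 = 14 ∧ v.2 < φ.length ∧ u = (lty (lt φ (3 * v.2 + 2)).1, (lt φ (3 * v.2 + 2)).2) then
    some (5, v.2) else none

/-- The middle vertex. -/
def md (φ : F3) (u v : ℕ × ℕ) : Option (ℕ × ℕ) :=
  if u.1 < v.1 then m0 φ u v else if v.1 < u.1 then m0 φ v u else none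

/-- The pairs of types that may have middle vertices. -/
def spe (s t : ℕ) : Bool :=
  decide (tab s t < 15) || (decide (s = 8) && decide (t = 9)) ||
  (decide (s = 3) && decide (t = 4)) ||
  (decide (s = 3) && (decide (t = 10) || decide (t = 11))) ||
  (decide (s = 4) && (decide (t = 10) || decide (t = 11))) ||
  ((decide (s = 10) || decide (s = 11)) && decide (t = 14))

/-- Middle vertices of types. -/
def spm (s t r : ℕ) : Bool :=
  (decide (tab s t = r) && decide (r < 15)) ||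
  (decide (s = 8) && decide (t = 9) && decide (r = 7)) ||
  (decide (s = 3) && decide (t = 4) && decide (r = 2)) ||
  (decide (s = 3) && (decide (t = 10) || decide (t = 11)) && decide (r = 12)) ||
  (decide (s = 4) && (decide (t = 10) || decide (t = 11)) && decide (r = 13)) ||
  ((decide (s = 10) || decide (s = 11)) && decide (t = 14) && decide (r = 5))

theorem lty_cases (b : Bool) : lty b = 10 ∨ lty b = 11 := by
  cases b
  · exact Or.inl rfl
  · exact Or.inr rfl

theorem m0_spm {φ : F3} {u v w : ℕ × ℕ} (h : m0 φ u v = some w) : spm u.1 v.1 w.1 = true := by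
  unfold m0 at h
  unfold spm
  simp only [Bool.or_eq_true, Bool.and_eq_true, decide_eq_true_eq]
  split_ifs at h with h1 h2 h3 h4 h5 h6
  · rw [Option.some.injEq] at h
    rw [← h]
    exact Or.inl (Or.inl (Or.inl (Or.inl (Or.inl ⟨rfl, h1.2⟩))))
  · rw [Option.some.injEq] at h
    rw [← h]
    exact Or.inl (Or.inl (Or.inl (Or.inl (Or.inr ⟨⟨h2.2.1, h2.2.2.1⟩, rfl⟩))))
  · rw [Option.some.injEq] at h
    rw [← h]
    exact Or.inl (Or.inl (Or.inl (Or.inr ⟨⟨h3.2.1, h3.2.2.1⟩, rfl⟩)))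
  · rw [Option.some.injEq] at h
    rw [← h, h4.2.2]
    exact Or.inl (Or.inl (Or.inr ⟨⟨h4.1, lty_cases _⟩, rfl⟩))
  · rw [Option.some.injEq] at h
    rw [← h, h5.2.2]
    exact Or.inl (Or.inr ⟨⟨h5.1, lty_cases _⟩, rfl⟩)
  · rw [Option.some.injEq] at h
    rw [← h, h6.2.2]
    exact Or.inr ⟨⟨lty_cases _, h6.1⟩, rfl⟩

theorem spm_spe {s t r : ℕ} (h : spm s t r = true) : spe s t = true := by
  unfold spm at h
  unfold spe
  simp only [Bool.or_eq_true, Bool.and_eq_true, decide_eq_true_eq] at h ⊢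
  rcases h with ((((h | h) | h) | h) | h) | h
  · exact Or.inl (Or.inl (Or.inl (Or.inl (Or.inl (by omega)))))
  · exact Or.inl (Or.inl (Or.inl (Or.inl (Or.inr h.1))))
  · exact Or.inl (Or.inl (Or.inl (Or.inr h.1)))
  · exact Or.inl (Or.inl (Or.inr h.1))
  · exact Or.inl (Or.inr h.1)
  · exact Or.inr h.1

/-- The check of the table. -/
def chk2 (s t r : ℕ) : Bool :=
  !(spm s t r) || (!(r == s) && !(r == t) && !(spe s r) && !(spe r s) && !(spe t r) && !(spe r t))

theorem chk2_all : ((List.range 15).all fun s => (List.range 15).all fun t =>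
    (List.range 15).all fun r => chk2 s t r) = true := by
  decide +kernel

theorem spm_table : ∀ s < 15, ∀ t < 15, ∀ r < 15, spm s t r = true →
    r ≠ s ∧ r ≠ t ∧ spe s r = false ∧ spe r s = false ∧ spe t r = false ∧ spe r t = false := by
  intro s hs t ht r hr h
  have h1 := List.all_eq_true.1 chk2_all s (List.mem_range.2 hs)
  have h2 := List.all_eq_true.1 h1 t (List.mem_range.2 ht)
  have h3 := List.all_eq_true.1 h2 r (List.mem_range.2 hr)
  unfold chk2 at h3
  rw [h] at h3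
  simp only [Bool.not_true, Bool.false_or, Bool.and_eq_true, Bool.not_eq_true', beq_eq_false_iff_ne,
    ne_eq] at h3
  obtain ⟨⟨⟨⟨⟨h4, h5⟩, h6⟩, h7⟩, h8⟩, h9⟩ := h3
  exact ⟨h4, h5, h6, h7, h8, h9⟩

theorem spm_r {s t r : ℕ} (h : spm s t r = true) : r < 15 := by
  unfold spm at h
  simp only [Bool.or_eq_true, Bool.and_eq_true, decide_eq_true_eq] at h
  omega

theorem md_none {φ : F3} {u v : ℕ × ℕ} (h1 : spe u.1 v.1 = false) (h2 : spe v.1 u.1 = false) :
    md φ u v = none := by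
  unfold md
  split_ifs
  · cases h : m0 φ u v with
    | none => rfl
    | some w => rw [spm_spe (m0_spm h)] at h1; simp at h1
  · cases h : m0 φ v u with
    | none => rfl
    | some w => rw [spm_spe (m0_spm h)] at h2; simp at h2
  · rfl

theorem md_symm (φ : F3) (u v : ℕ × ℕ) : md φ u v = md φ v u := by
  unfold md
  by_cases h1 : u.1 < v.1
  · rw [if_pos h1, if_neg (by omega), if_pos h1]
  · by_cases h2 : v.1 < u.1
    · rw [if_neg h1, if_pos h2, if_pos h2]
    · rw [if_neg h1, if_neg h2, if_neg h2, if_neg h1]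

theorem md_irr (φ : F3) (u : ℕ × ℕ) : md φ u u = none := by
  unfold md
  rw [if_neg (lt_irrefl _), if_neg (lt_irrefl _)]

theorem md_spm {φ : F3} {u v w : ℕ × ℕ} (h : md φ u v = some w) :
    spm u.1 v.1 w.1 = true ∨ spm v.1 u.1 w.1 = true := by
  unfold md at h
  split_ifs at h
  · exact Or.inl (m0_spm h)
  · exact Or.inr (m0_spm h)

theorem md_spec {φ : F3} {u v w : ℕ × ℕ} (hu : u.1 < 15) (hv : v.1 < 15)
    (h : md φ u v = some w) :
    w.1 < 15 ∧ w ≠ u ∧ w ≠ v ∧ md φ u w = none ∧ md φ w v = none := by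
  rcases md_spm h with h1 | h1
  · have hr := spm_r h1
    obtain ⟨h2, h3, h4, h5, h6, h7⟩ := spm_table _ hu _ hv _ hr h1
    exact ⟨hr, fun h => h2 (congrArg Prod.fst h), fun h => h3 (congrArg Prod.fst h),
      md_none h4 h5, md_none h7 h6⟩
  · have hr := spm_r h1
    obtain ⟨h2, h3, h4, h5, h6, h7⟩ := spm_table _ hv _ hu _ hr h1
    exact ⟨hr, fun h => h3 (congrArg Prod.fst h), fun h => h2 (congrArg Prod.fst h),
      md_none h6 h7, md_none h5 h4⟩

theorem md_idx {φ : F3} {u v w : ℕ × ℕ} (hu : u.2 < 3 * φ.length) (hv : v.2 < 3 * φ.length)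
    (h : md φ u v = some w) : w.2 < 3 * φ.length := by
  have key : ∀ u v : ℕ × ℕ, u.2 < 3 * φ.length → v.2 < 3 * φ.length → m0 φ u v = some w →
      w.2 < 3 * φ.length := by
    intro u v hu hv h
    unfold m0 at h
    split_ifs at h with h1 h2 h3 h4 h5 h6 <;> rw [Option.some.injEq] at h <;> rw [← h]
    · exact hu
    · exact h2.2.2.2
    · exact h3.2.2.2
    · exact hu
    · exact hu
    · exact hv
  unfold md at h
  split_ifs at h
  · exact key u v hu hv h
  · exact key v u hv hu h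

end Pool.Agent.Q329.PSy
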