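import Pool.Agent.Q329.PSy.Corr
import Pool.Agent.NPC.Dec
import Pool.Agent.H671R2.PolyAuto
import Pool.Agent.H671R2.GraphEnc
import Pool.Agent.W903.GP.Hier

/-!
# Deciding whether a consistent path system has a reduction is NP-hard
-/

namespace Pool.Agent.Q329.PSy

open Pool.Agent.NPC

/-- The number of vertices. -/
def NN (φ : F3) : ℕ := 15 * (3 * φ.length)

/-- The label of a vertex. -/
def lab (u : ℕ) : ℕ × ℕ := (u % 15, u / 15)

/-- The vertex with a label. -/
def cod (a : ℕ × ℕ) : ℕ := a.1 + 15 * a.2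

theorem lab_cod {a : ℕ × ℕ} (h : a.1 < 15) : lab (cod a) = a := by
  unfold lab cod
  refine Prod.ext ?_ ?_
  · simp only; omega
  · simp only; omega

theorem cod_lab (u : ℕ) : cod (lab u) = u := by
  unfold lab cod
  simp only
  omega

theorem lab_lt {φ : F3} {u : ℕ} (h : u < NN φ) : (lab u).1 < 15 ∧ (lab u).2 < 3 * φ.length := by
  unfold NN at h
  unfold lab
  simp only
  omega

theorem cod_lt {φ : F3} {a : ℕ × ℕ} (h : a.1 < 15) (h' : a.2 < 3 * φ.length) : cod a < NN φ := by
  unfold NN cod
  omega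

/-- The middle vertices. -/
def mm (φ : F3) (u v : ℕ) : Option ℕ := (md φ (lab u) (lab v)).map cod

theorem mm_lt {φ : F3} {u v w : ℕ} (hu : u < NN φ) (hv : v < NN φ) (h : mm φ u v = some w) :
    w < NN φ ∧ md φ (lab u) (lab v) = some (lab w) := by
  unfold mm at h
  rw [Option.map_eq_some_iff] at h
  obtain ⟨a, h1, rfl⟩ := h
  obtain ⟨h2, _⟩ := md_spec (lab_lt hu).1 (lab_lt hv).1 h1
  have h3 := md_idx (lab_lt hu).2 (lab_lt hv).2 h1
  exact ⟨cod_lt h2 h3, by rw [lab_cod h2]; exact h1⟩

/-- The middle vertices, for vertices in `Fin`. -/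
def mf (φ : F3) (u v : Fin (NN φ)) : Option (Fin (NN φ)) :=
  (mm φ u v).bind fun w => if h : w < NN φ then some ⟨w, h⟩ else none

theorem mf_iff {φ : F3} {u v w : Fin (NN φ)} :
    mf φ u v = some w ↔ md φ (lab u) (lab v) = some (lab w) := by
  unfold mf
  rw [Option.bind_eq_some_iff]
  constructor
  · rintro ⟨x, h1, h2⟩
    obtain ⟨h3, h4⟩ := mm_lt u.2 v.2 h1
    rw [dif_pos h3, Option.some.injEq] at h2
    rw [← h2]
    exact h4
  · intro h
    refine ⟨w, ?_, ?_⟩
    · unfold mm
      rw [h, Option.map_some, cod_lab]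
    · rw [dif_pos w.2]

theorem mf_none {φ : F3} {u v : Fin (NN φ)} : mf φ u v = none ↔ md φ (lab u) (lab v) = none := by
  constructor
  · intro h
    by_contra hc
    obtain ⟨a, ha⟩ := Option.ne_none_iff_exists'.1 hc
    obtain ⟨h2, _⟩ := md_spec (lab_lt u.2).1 (lab_lt v.2).1 ha
    have h3 := md_idx (lab_lt u.2).2 (lab_lt v.2).2 ha
    have : mf φ u v = some ⟨cod a, cod_lt h2 h3⟩ := by
      rw [mf_iff]
      simp only
      rw [lab_cod h2]
      exact ha
    rw [h] at this
    simp at this
  · intro h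
    by_contra hc
    obtain ⟨a, ha⟩ := Option.ne_none_iff_exists'.1 hc
    rw [mf_iff, h] at ha
    simp at ha

theorem isMid (φ : F3) : IsMid (mf φ) := by
  constructor
  · intro u v
    cases h : mf φ v u with
    | none => rw [mf_none, md_symm, ← mf_none]; exact h
    | some w => rw [mf_iff, md_symm, ← mf_iff]; exact h
  · intro u
    rw [mf_none]
    exact md_irr φ _
  · intro u v w h
    rw [mf_iff] at h
    obtain ⟨_, h2, h3, _⟩ := md_spec (lab_lt u.2).1 (lab_lt v.2).1 h
    exact ⟨fun h => h2 (by rw [h]), fun h => h3 (by rw [h])⟩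
  · intro u v w h
    rw [mf_iff] at h
    obtain ⟨_, _, _, h4, h5⟩ := md_spec (lab_lt u.2).1 (lab_lt v.2).1 h
    exact ⟨mf_none.2 h4, mf_none.2 h5⟩

theorem reduction_iff {φ : F3} (hb : Bounded3 φ) (h0 : φ ≠ []) :
    (∃ A, IsReduction (mP (mf φ)) A) ↔ SAT3 φ := by
  have hpos : 0 < φ.length := List.length_pos_of_ne_nil h0
  rw [exists_reduction_iff (isMid φ)]
  constructor
  · rintro ⟨c, ⟨u, v, huv⟩, hc⟩
    obtain ⟨C, hC⟩ : ∃ C : ℕ × ℕ → Bool, ∀ u : Fin (NN φ), C (lab u) = c u := by
      refine ⟨fun a => if h : cod a < NN φ then c ⟨cod a, h⟩ else false, fun u => ?_⟩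
      simp only [cod_lab, u.2, dif_pos]
    have hg : Good φ C := by
      intro a b w ha1 ha2 hb1 hb2 h hab
      have e1 := lab_cod ha1
      have e2 := lab_cod hb1
      obtain ⟨h3, _⟩ := md_spec ha1 hb1 h
      have h4 := md_idx ha2 hb2 h
      have e3 := lab_cod h3
      have hC1 := hC ⟨cod a, cod_lt ha1 ha2⟩
      have hC2 := hC ⟨cod b, cod_lt hb1 hb2⟩
      have hC3 := hC ⟨cod w, cod_lt h3 h4⟩
      simp only [e1, e2, e3] at hC1 hC2 hC3
      rw [hC3, hC1]
      refine hc ⟨cod a, cod_lt ha1 ha2⟩ ⟨cod b, cod_lt hb1 hb2⟩ ⟨cod w, cod_lt h3 h4⟩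
        (mf_iff.2 ?_) (hC1.symm.trans (hab.trans hC2))
      simp only [e1, e2, e3]
      exact h
    exact sound hg hb (lab_lt u.2).1 (lab_lt u.2).2 (lab_lt v.2).1 (lab_lt v.2).2
      (by rw [hC, hC]; exact huv)
  · rintro ⟨τ, hτ⟩
    rw [sat_iff] at hτ
    have hg := complete hτ
    refine ⟨fun u => col φ τ (lab u), ⟨⟨cod (0, 0), cod_lt (by norm_num) (by
      change 0 < _; omega)⟩, ⟨cod (5, 0), cod_lt (by norm_num) (by change 0 < _; omega)⟩, ?_⟩, ?_⟩
    · simp only
      rw [lab_cod (by norm_num), lab_cod (by norm_num), col_S (by norm_num),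
        col_T (by norm_num) (by norm_num)]
      simp
    · intro u v w h
      rw [mf_iff] at h
      exact hg _ _ _ (lab_lt u.2).1 (lab_lt u.2).2 (lab_lt v.2).1 (lab_lt v.2).2 h

/-! ### The instance -/

/-- The table of the paths. -/
def lst (φ : F3) (u v : ℕ) : List ℕ :=
  if u = v then [u] else match mm φ u v with
    | none => [u, v]
    | some w => [u, w, v]

/-- The adjacency of vertices. -/
def adj (φ : F3) (u v : ℕ) : Bool := !(decide (u = v)) && !(mm φ u v).isSome

/-- The instance. -/
def out (φ : F3) : List (List Bool) × List (List (List ℕ)) :=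
  ((List.range (NN φ)).map fun u => (List.range (NN φ)).map fun v => adj φ u v,
   (List.range (NN φ)).map fun u => (List.range (NN φ)).map fun v => lst φ u v)

theorem mm_none {φ : F3} {u v : Fin (NN φ)} : mm φ u v = none ↔ mf φ u v = none := by
  rw [mf_none]
  unfold mm
  rw [Option.map_eq_none_iff]

theorem out_eq (φ : F3) : inst (mG (isMid φ)) (mP (mf φ)) = out φ := by
  unfold inst out
  refine Prod.ext ?_ ?_
  · simp only
    unfold R671.adjMatrix
    refine List.ext_getElem (by simp) fun i h1 h2 => ?_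
    simp only [List.length_ofFn] at h1
    simp only [List.getElem_ofFn, List.getElem_map, List.getElem_range]
    refine List.ext_getElem (by simp) fun j h3 h4 => ?_
    simp only [List.length_ofFn] at h3
    simp only [List.getElem_ofFn, List.getElem_map, List.getElem_range]
    unfold adj mG
    simp only [ne_eq]
    have e := mm_none (φ := φ) (u := ⟨i, h1⟩) (v := ⟨j, h3⟩)
    simp only at e
    by_cases hij : i = j
    · simp [hij]
    · cases hm : mm φ i j with
      | none =>
        have := e.1 hm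
        simp [hij, this]
      | some w =>
        have : mf φ ⟨i, h1⟩ ⟨j, h3⟩ ≠ none := fun h => by rw [e.2 h] at hm; simp at hm
        simp [hij, this]
  · simp only
    refine List.ext_getElem (by simp) fun i h1 h2 => ?_
    simp only [List.length_ofFn] at h1
    simp only [List.getElem_ofFn, List.getElem_map, List.getElem_range]
    refine List.ext_getElem (by simp) fun j h3 h4 => ?_
    simp only [List.length_ofFn] at h3
    simp only [List.getElem_ofFn, List.getElem_map, List.getElem_range]
    unfold mP lst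
    by_cases hij : i = j
    · simp [hij]
    · have hij' : ¬ (⟨i, h1⟩ : Fin (NN φ)) = ⟨j, h3⟩ := fun h => hij (congrArg Fin.val h)
      rw [if_neg hij, if_neg hij']
      cases hm : mm φ i j with
      | none =>
        have := (mm_none (φ := φ) (u := ⟨i, h1⟩) (v := ⟨j, h3⟩)).1 hm
        rw [this]
        rfl
      | some w =>
        obtain ⟨h5, h6⟩ := mm_lt h1 h3 hm
        have : mf φ ⟨i, h1⟩ ⟨j, h3⟩ = some ⟨w, h5⟩ := mf_iff.2 h6
        rw [this]
        rfl

theorem inst_inj {n m : ℕ} {G : SimpleGraph (Fin n)} {H : SimpleGraph (Fin m)}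
    {P : Fin n → Fin n → List (Fin n)} {Q : Fin m → Fin m → List (Fin m)}
    (h : inst G P = inst H Q) : (∃ A, IsReduction P A) ↔ ∃ A, IsReduction Q A := by
  unfold inst at h
  rw [Prod.mk.injEq] at h
  have hn : n = m := by
    have := congrArg List.length h.2
    simpa using this
  subst hn
  have h2 := List.ofFn_injective h.2
  have hPQ : P = Q := by
    funext u v
    have h3 := List.ofFn_injective (congrFun h2 u)
    have h4 := congrFun h3 v
    exact List.map_injective_iff.2 Fin.val_injective h4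
  rw [hPQ]

/-! ### Polynomial time -/

variable {α : Type} [TEnc α]

theorem poly_lt {F : α → F3} {l : α → ℕ} (hF : Poly F) (hl : Poly l) :
    Poly (fun a => lt (F a) (l a)) := by
  unfold lt lits
  fun_prop

attribute [local fun_prop] poly_lt

theorem poly_lty {b : α → Bool} (hb : Poly b) : Poly (fun a => lty (b a)) := by
  unfold lty
  fun_prop

theorem poly_tab {s t : α → ℕ} (hs : Poly s) (ht : Poly t) : Poly (fun a => tab (s a) (t a)) := by
  unfold tab
  fun_prop

attribute [local fun_prop] poly_lty poly_tab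

theorem poly_m0 {F : α → F3} {u v : α → ℕ × ℕ} (hF : Poly F) (hu : Poly u) (hv : Poly v) :
    Poly (fun a => m0 (F a) (u a) (v a)) := by
  unfold m0
  fun_prop

attribute [local fun_prop] poly_m0

theorem poly_md {F : α → F3} {u v : α → ℕ × ℕ} (hF : Poly F) (hu : Poly u) (hv : Poly v) :
    Poly (fun a => md (F a) (u a) (v a)) := by
  unfold md
  fun_prop

attribute [local fun_prop] poly_md

theorem poly_mm {F : α → F3} {u v : α → ℕ} (hF : Poly F) (hu : Poly u) (hv : Poly v) :
    Poly (fun a => mm (F a) (u a) (v a)) := by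
  unfold mm cod lab
  refine Poly.optMap (o := fun a => md (F a) (u a % 15, u a / 15) (v a % 15, v a / 15))
    (f := fun _ b => b.1 + 15 * b.2) ?_ ?_
  · fun_prop
  · fun_prop

attribute [local fun_prop] poly_mm

theorem poly_lst {F : α → F3} {u v : α → ℕ} (hF : Poly F) (hu : Poly u) (hv : Poly v) :
    Poly (fun a => lst (F a) (u a) (v a)) := by
  unfold lst
  refine Poly.ite (by fun_prop) (by fun_prop) ?_
  exact (Poly.optCases (o := fun a => mm (F a) (u a) (v a)) (g := fun a => [u a, v a])
    (h := fun a w => [u a, w, v a]) (by fun_prop) (by fun_prop) (by fun_prop)).congr fun a => by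
      cases mm (F a) (u a) (v a) <;> rfl

theorem poly_adj {F : α → F3} {u v : α → ℕ} (hF : Poly F) (hu : Poly u) (hv : Poly v) :
    Poly (fun a => adj (F a) (u a) (v a)) := by
  unfold adj
  have h := Poly.isSome (poly_mm hF hu hv)
  fun_prop

attribute [local fun_prop] poly_lst poly_adj

theorem poly_range {F : α → F3} (hF : Poly F) : Poly (fun a => List.range (NN (F a))) :=
  (NPC.Poly.range_length (l := fun a => (F a).flatMap fun _ => List.replicate 45 true)
    (by fun_prop)).congr fun a => by
    unfold NN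
    rw [List.length_flatMap]
    simp
    ring_nf

attribute [local fun_prop] poly_range

theorem poly_out : Poly out := by
  unfold out
  fun_prop

/-! ### The main results -/

theorem hard : HardPr (fun I => ∃ (n : ℕ) (G : SimpleGraph (Fin n))
    (P : Fin n → Fin n → List (Fin n)), inst G P = I ∧ IsPathSystem G P) HasReduction :=
  hardPr_SAT3b.trans poly_out (fun φ _ => ⟨_, _, _, out_eq φ, isPathSystem (isMid φ)⟩)
    fun φ h => by
      rw [← reduction_iff h.2.1 h.2.2]
      constructor
      · intro h1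
        exact ⟨_, _, _, out_eq φ, isPathSystem (isMid φ), h1⟩
      · rintro ⟨n, G, P, h1, _, h3⟩
        exact (inst_inj (h1.trans (out_eq φ).symm)).1 h3

theorem collapse {D : List Bool → List Bool} (hD : PolyTime D)
    (h : ∀ (n : ℕ) (G : SimpleGraph (Fin n)) (P : Fin n → Fin n → List (Fin n)),
      IsPathSystem G P → (D (bits (inst G P)) = [true] ↔ Irreducible P)) (L : Set (List Bool))
    (hL : InNP L) : InP L := by
  obtain ⟨f, hf, hpr, hfL⟩ := hard L hL
  have h1 : InP Lᶜ := by
    refine ⟨fun x => D (bits (f x)), H642R2.TMSim.polyTime_comp hD (PC.toPolyTime hf),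
      fun x => ?_⟩
    obtain ⟨n, G, P, hG, hP⟩ := hpr x
    have hfx : x ∈ L ↔ HasReduction (f x) := hfL x
    change x ∈ Lᶜ ↔ D (bits (f x)) = [true]
    rw [Set.mem_compl_iff, hfx, ← hG, h n G P hP]
    unfold Irreducible
    refine not_congr ⟨?_, ?_⟩
    · rintro ⟨n', G', P', hG', _, h'⟩
      exact (inst_inj hG').1 h'
    · intro h'
      exact ⟨n, G, P, rfl, hP, h'⟩
  have h2 := W903.GP.inP_compl h1
  rwa [compl_compl] at h2

end Pool.Agent.Q329.PSy
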